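import Pool.Agent.helper4.HL.Spec

/-! # Quantum cat maps at generic Planck mantissas, module PARQ: choice of the parameters
(adapted from `Pool/Agent/helper97/QS/PAR.lean`) -/

set_option autoImplicit false

open scoped BigOperators ComplexOrder ComplexConjugate Topology

namespace Pool.Agent.HL

open Pool.Agent.helper86.CM Pool.Agent.QS Filter MeasureTheory

noncomputable section

theorem PARQ (hTIM : TIMQ_stmt) (hVAR : VAR_stmt) (hLUP : LUP_stmt) (hLUL : LUL_stmt)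
    (hPDB : PDB_stmt) (hREPN : REPN_stmt) (hRKA : RKA_stmt) : PARQ_stmt := by
  intro B t hB Q hQ Φ hΦ M K δ hδ
  obtain ⟨C, hC1, hC⟩ := hTIM B t hB Q hQ
  obtain ⟨a₀, ha₀, hdiv⟩ := hRKA t Q hQ
  obtain ⟨⟨hlam, -, -⟩, -⟩ := hLUL t hB.lt
  have hl0 : 0 < lam t := by linarith
  have hl1 : 1 < lam t := by linarith
  have hC0 : 0 < C := by linarith
  have hM0 : (0 : ℝ) ≤ M := Nat.cast_nonneg M
  obtain ⟨A, hAdef⟩ : ∃ A : ℝ, A = 4 * C * (M + 1) / δ + C * (M + 1) + 1 := ⟨_, rfl⟩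
  have hA1 : 4 * C * (M + 1) / δ ≤ A := by
    rw [hAdef]
    have : 0 ≤ C * ((M : ℝ) + 1) := by positivity
    linarith
  have hA2 : C * (M + 1) ≤ A := by
    rw [hAdef]
    have : 0 ≤ 4 * C * ((M : ℝ) + 1) / δ := by positivity
    linarith
  have hA3 : 1 ≤ A := by
    rw [hAdef]
    have : 0 ≤ 4 * C * ((M : ℝ) + 1) / δ := by positivity
    have : 0 ≤ C * ((M : ℝ) + 1) := by positivity
    linarith
  obtain ⟨a, ha⟩ := pow_unbounded_of_one_lt (C * (A + 1) ^ 2 * (1 + 4 / δ)) hl1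
  obtain ⟨r0, hr0⟩ := exists_nat_ge (16 * (a : ℝ) / δ)
  obtain ⟨J', hJ'⟩ := exists_nat_ge (16 / δ)
  obtain ⟨J, hJdef⟩ : ∃ J : ℕ, J = a₀ * (J' + K + 2) := ⟨_, rfl⟩
  have hJ : J' + K + 2 ≤ J := by
    rw [hJdef]
    exact Nat.le_mul_of_pos_left _ ha₀
  obtain ⟨s, hs⟩ : ∃ s : ℕ, s = 2 * r0 + 1 + a := ⟨_, rfl⟩
  obtain ⟨x, hxd⟩ : ∃ x : ℝ, x = lam t ^ r0 := ⟨_, rfl⟩
  have hx1 : 1 ≤ x := by
    rw [hxd]
    exact one_le_pow₀ hl1.le
  have hx0 : 0 < x := by linarith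
  obtain ⟨R, hR⟩ : ∃ R : ℕ, R = ⌈A * x⌉₊ := ⟨_, rfl⟩
  have hAx : 1 ≤ A * x := by nlinarith
  have hR1 : A * x ≤ R := by
    rw [hR]
    exact Nat.le_ceil _
  have hR2 : (R : ℝ) ≤ (A + 1) * x := by
    have := (Nat.ceil_lt_add_one (by linarith : 0 ≤ A * x)).le
    rw [← hR] at this
    nlinarith
  have hRpos : (0 : ℝ) < R := by linarith
  have hR3 : 1 ≤ R := by
    have : (1 : ℝ) ≤ R := by linarith
    exact_mod_cast this
  have hCR : C * (R : ℝ) ^ 2 ≤ C * (A + 1) ^ 2 * x ^ 2 := by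
    have h1 : (R : ℝ) ^ 2 ≤ ((A + 1) * x) ^ 2 := pow_le_pow_left₀ hRpos.le hR2 2
    calc C * (R : ℝ) ^ 2 ≤ C * ((A + 1) * x) ^ 2 := by gcongr
      _ = _ := by ring
  have hls : x ^ 2 * lam t ^ a ≤ lam t ^ s := by
    rw [hs, hxd, pow_add, pow_add, pow_mul, pow_one, ← pow_mul, ← pow_mul, mul_comm r0 2]
    have h1 : 0 < lam t ^ (2 * r0) := by positivity
    have h2 : 0 < lam t ^ a := by positivity
    have h3 : lam t ^ (2 * r0) ≤ lam t ^ (2 * r0) * lam t := by nlinarith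
    gcongr
  have h4δ : 0 < 4 / δ := by positivity
  have hD : 0 < C * (A + 1) ^ 2 := by positivity
  have hcond1 : C * (R : ℝ) ^ 2 ≤ (lam t) ^ s := by
    calc C * (R : ℝ) ^ 2 ≤ C * (A + 1) ^ 2 * x ^ 2 := hCR
      _ ≤ lam t ^ a * x ^ 2 := by
          gcongr
          nlinarith
      _ ≤ _ := by rw [mul_comm]; exact hls
  have hcond2 : C * ((R : ℝ) ^ 2 * ((lam t)⁻¹) ^ s) ≤ δ / 4 := by
    rw [inv_pow, ← mul_assoc, ← div_eq_mul_inv, div_le_iff₀ (by positivity)]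
    have h1 : C * (A + 1) ^ 2 * (4 / δ) ≤ lam t ^ a := by nlinarith
    have h2 : C * (A + 1) ^ 2 ≤ δ / 4 * lam t ^ a := by
      have h3 : δ / 4 * (C * (A + 1) ^ 2 * (4 / δ)) = C * (A + 1) ^ 2 := by
        field_simp
      rw [← h3]
      gcongr
    calc C * (R : ℝ) ^ 2 ≤ C * (A + 1) ^ 2 * x ^ 2 := hCR
      _ ≤ δ / 4 * lam t ^ a * x ^ 2 := by gcongr
      _ = δ / 4 * (x ^ 2 * lam t ^ a) := by ring
      _ ≤ δ / 4 * lam t ^ s := by gcongr
  have hcond3 : C * (x * M / R) ≤ δ / 4 := by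
    have h1 : x * M / R ≤ M / A := by
      rw [div_le_div_iff₀ hRpos (by linarith)]
      nlinarith
    have h2 : C * (M / A) ≤ δ / 4 := by
      rw [← mul_div_assoc, div_le_iff₀ (by linarith)]
      have h3 : δ / 4 * (4 * C * (M + 1) / δ) = C * (M + 1) := by
        field_simp
      have h4 : δ / 4 * (4 * C * (M + 1) / δ) ≤ δ / 4 * A := by gcongr
      rw [h3] at h4
      nlinarith
    calc C * (x * M / R) ≤ C * (M / A) := by gcongr
      _ ≤ _ := h2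
  -- positivity of N
  have hs1 : 1 ≤ s := by omega
  have hJ2 : 2 ≤ J := by omega
  have hsJ : J ≤ s * J := Nat.le_mul_of_pos_left J (by omega)
  have hNpos : 0 < lu t (s * J) := by
    obtain ⟨k', hk'⟩ : ∃ k', s * J = k' + 1 := ⟨s * J - 1, by omega⟩
    rw [hk']
    have := hLUP t hB.lt k'
    linarith [this.1, this.2]
  have hdvd : (Q : ℤ) ∣ lu t (s * J) := by
    have e : s * J = a₀ * (s * (J' + K + 2)) := by
      rw [hJdef]
      ring
    rw [e]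
    exact hdiv _
  obtain ⟨z, hz⟩ := hdvd
  have hQ0 : (0 : ℤ) < Q := by exact_mod_cast hQ
  have hz0 : 0 < z := by
    rw [hz] at hNpos
    exact (mul_pos_iff_of_pos_left hQ0).mp hNpos
  obtain ⟨N, hN⟩ : ∃ N : ℕ, ((Q * N : ℕ) : ℤ) = lu t (s * J) := ⟨z.toNat, by
    rw [hz]
    push_cast
    rw [Int.toNat_of_nonneg hz0.le]⟩
  have hNZ : NeZero N := ⟨by
    intro h0
    rw [h0] at hN
    rw [← hN] at hNpos
    simp at hNpos⟩
  obtain ⟨m, w, hw, hmain⟩ := hC Φ hΦ s J r0 R N (by omega) hJ2 hR3 hN hcond1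
  refine ⟨s * J, N, hNZ, m, w, by omega, by omega, hN, hw, fun n hn => ?_⟩
  have hΦ1 : ‖Φ (n, 0)‖ ≤ 1 := (hPDB PP (hx B t Q) (bil_hx B t Q) Φ hΦ.pd hΦ.one).1 _
  have hvar := hVAR (St 1 N) (fun i => TT (pw B (i : ℤ) n)) (fun i v => (hREPN N).norm _ v) m w hw
    (Φ (n, 0)) hΦ1 s J (2 * r0 + 1) hs1 (by omega) (by omega)
    (C * (x * M / R + (R : ℝ) ^ 2 * ((lam t)⁻¹) ^ s)) (by positivity) (by
      intro e e' j j' r r' he he' hj hj' hjj hr hr'
      have hn' : C * (lam t) ^ r0 * ‖n‖ ≤ R := by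
        rw [← hxd]
        calc C * x * ‖n‖ ≤ C * x * M := by gcongr
          _ ≤ A * x := by nlinarith
          _ ≤ R := hR1
      refine (hmain n hn' e e' j j' r r' he he' hj hj' hjj hr hr').trans ?_
      rw [← hxd]
      gcongr)
  refine hvar.trans ?_
  have hsR : (0 : ℝ) < s := by exact_mod_cast hs1
  have hJR : (0 : ℝ) < J := by
    have : 0 < J := by omega
    exact_mod_cast this
  have e1 : (s : ℝ) - ((2 * r0 + 1 : ℕ) : ℝ) = a := by
    rw [hs]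
    push_cast
    ring
  have h5 : 4 * (2 * (a : ℝ) / s) ≤ δ / 4 := by
    rw [← mul_div_assoc, div_le_iff₀ hsR]
    have h6 : 16 * (a : ℝ) ≤ r0 * δ := by
      rwa [div_le_iff₀ hδ] at hr0
    have h7 : 2 * (r0 : ℝ) ≤ s := by
      rw [hs]
      push_cast
      have : (0 : ℝ) ≤ a := Nat.cast_nonneg a
      linarith
    nlinarith
  have h8 : 4 * (1 / (J : ℝ)) ≤ δ / 4 := by
    rw [mul_one_div, div_le_iff₀ hJR]
    have h9 : 16 ≤ J' * δ := by
      rwa [div_le_iff₀ hδ] at hJ'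
    have h10 : (J' : ℝ) ≤ J := by
      have : J' ≤ J := by omega
      exact_mod_cast this
    nlinarith
  rw [e1, mul_add C, mul_add (4 : ℝ)]
  linarith

end

end Pool.Agent.HL

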